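import Pool.Agent.TH410.KV.CubMain

set_option autoImplicit false

/-!
# Fixed subgraphs which split into few cubical classes: evasive for all large `n` (MP_257582_lc)

Let `h` be a power of 2 or of 3 and `𝓕` a family of graphs of bounded order, none of them
`h`-colourable, and one of them with a partition of its vertex set into `h` classes each of which
induces a subgraph of a hypercube (for example a forest). Then containing a member of `𝓕` is an
evasive property of graphs on `n` vertices for ALL large `n`.

Proof.  Let `q` be the prime with `h = q ^ I`. The vertex set is cut into fields of orders `p ^ c`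
and `p ^ (c + 1)` (`p = 23` for `q = 2`, `p = 2` for `q = 3`) and a bounded number of prime blocks
`ZMod ℓ`. The group (translations of the fields, one element which multiplies the fields by
generators and rotates the prime blocks, multiplications of the prime blocks by elements of order
a power of `q`) is of Oliver type, so the signed number of the invariant graphs without a member is
divisible by `q` if the property is not evasive. This number is evaluated in a commutative ring of
types of blocks modulo the kernel of the counting functional. In this ring
`t ^ q = t - J t`, where `J t` is the join of `q` copies of `t` (exchange of `q` equal blocks);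
hence `(1 - Frobenius) ^ I` maps the field block and every prime block to the same element `u`, the
complete `h`-partite block: a non-empty circulant graph contains large cubes, so the other terms
contain a member. As `u ^ q = u` is not killed by the functional, a suitable number of blocks gives
a signed number which is not divisible by `q`.
-/

namespace Pool.Agent.Results.MP_257582_lc.CubicalPartition

open Pool.Agent.TH410.KV

/-- Every decision strategy `σ` (the next pair to be queried depends only on the answers to the
queries made so far) needs all `n.choose 2` queries: there are two graphs that agree on the first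
`n.choose 2 - 1` queried pairs, one with and one without `P`. -/
def Evasive {n : ℕ} (P : SimpleGraph (Fin n) → Prop) : Prop :=
  ∀ σ : Finset (Sym2 (Fin n)) → SimpleGraph (Fin n) → Sym2 (Fin n),
    (∀ (Q : Finset (Sym2 (Fin n))) (G H : SimpleGraph (Fin n)),
        (∀ e ∈ Q, (e ∈ G.edgeSet ↔ e ∈ H.edgeSet)) → σ Q G = σ Q H) →
    ∃ G H : SimpleGraph (Fin n),
      (∀ e ∈ (fun Q : Finset (Sym2 (Fin n)) => insert (σ Q G) Q)^[n.choose 2 - 1]
            (∅ : Finset (Sym2 (Fin n))),
          (e ∈ G.edgeSet ↔ e ∈ H.edgeSet)) ∧ P G ∧ ¬ P H

/-- The vertex set of `G` splits into `h` classes (the fibres of `κ`) each of which induces a graph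
isomorphic to a subgraph of a hypercube (vertices: the subsets of an `N`-element set; edges: the
pairs of subsets that differ in exactly one element). -/
def CubicalSplit {k : ℕ} (h : ℕ) (G : SimpleGraph (Fin k)) : Prop :=
  ∃ (N : ℕ) (κ : Fin k → Fin h) (φ : Fin k → Finset (Fin N)),
    (∀ x y, κ x = κ y → φ x = φ y → x = y) ∧
    ∀ x y, κ x = κ y → G.Adj x y → (symmDiff (φ x) (φ y)).card = 1

/-- **Containing a fixed graph which splits into few cubical classes is evasive.** -/
theorem result (𝓕 : Set (Σ k : ℕ, SimpleGraph (Fin k))) (B : ℕ) (hB : ∀ F ∈ 𝓕, F.1 ≤ B)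
    (h : ℕ) (hh : ∃ I : ℕ, h = 2 ^ I ∨ h = 3 ^ I) (hcol : ∀ F ∈ 𝓕, ¬ F.2.Colorable h)
    (hcub : ∃ F ∈ 𝓕, CubicalSplit h F.2) :
    ∃ n₀ : ℕ, ∀ n : ℕ, n₀ ≤ n →
      Evasive (fun G : SimpleGraph (Fin n) => ∃ F ∈ 𝓕, F.2.IsContained G) := by
  obtain ⟨I, hI⟩ := hh
  obtain ⟨F, hF, N, κ, φ, h1, h2⟩ := hcub
  have hcs : CS h N F.2 := ⟨κ, φ, h1, h2⟩
  rcases hI with rfl | rfl
  · exact cub_main pq2 I N B 𝓕 hB hcol ⟨F, hF, hcs⟩
  · exact cub_main pq3 I N B 𝓕 hB hcol ⟨F, hF, hcs⟩

end Pool.Agent.Results.MP_257582_lc.CubicalPartition
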