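import Pool.Agent.TH669.KC.Direct
import Pool.Agent.TH669.KC.Sparse
import Pool.Agent.Results.MP_257582_lc.SparseEvasive

set_option autoImplicit false

/-!
# Large `k`-edge-connected subgraphs (MP_257582_lc)

Every monotone isomorphism-invariant property of graphs on `n` vertices that contains all graphs
in which some set of at least `s` vertices induces a `k`-edge-connected graph, and all members of which
have a set of at least `s` vertices that induces a connected graph of minimum degree at least `k`, is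
evasive, if `k ≥ 2`, `2 ≤ s ≤ n`, and either `s ≥ 5 k + 41` (every `n`, no hypothesis on the arithmetic of `n`), or
`n ≥ n₀` and `k ≤ n ^ (1 / 2 + ε)`.

Proof.  Let `s ≥ 5 k + 41`. The vertex set is cut into one fixed point, several blocks of the
same size `2 ^ a` on which an elementary abelian group acts regularly, and one or two further blocks
with cyclic groups, so that the group is an extension of a `2`-group by a cyclic group. If the
property is not evasive, then the signed sum of its values over the invariant graphs vanishes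
(`relation`). In an invariant graph every connected subgraph of minimum degree at least `k` on at
least `s` vertices can be enlarged to a union of blocks that is `k`-edge-connected (`key`), so that the
property takes a definite value on invariant graphs, and the sum is evaluated (`eval_rel`): it is plus
or minus a binomial coefficient, or a sum of two, that does not vanish. For
`s < 5 k + 41` the graphs without the property have at most `(10 k + 82) n` edges
(`sparse_bound`) and `SparseEvasive.result` applies.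
-/

namespace Pool.Agent.Results.MP_257582_lc.EdgeConnectedSubgraphs

open Pool.Agent.TH669.KC

/-- Every decision strategy `σ` (the next pair to be queried depends only on the answers to the
queries made so far) needs all `n.choose 2` queries: there are two graphs that agree on the first
`n.choose 2 - 1` queried pairs, one with and one without `P`. -/
def Evasive {n : ℕ} (P : SimpleGraph (Fin n) → Prop) : Prop :=
  ∀ σ : Finset (Sym2 (Fin n)) → SimpleGraph (Fin n) → Sym2 (Fin n),
    (∀ (Q : Finset (Sym2 (Fin n))) (G H : SimpleGraph (Fin n)),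
        (∀ e ∈ Q, (e ∈ G.edgeSet ↔ e ∈ H.edgeSet)) → σ Q G = σ Q H) →
    ∃ G H : SimpleGraph (Fin n),
      (∀ e ∈ (fun Q : Finset (Sym2 (Fin n)) => insert (σ Q G) Q)^[n.choose 2 - 1]
            (∅ : Finset (Sym2 (Fin n))),
          (e ∈ G.edgeSet ↔ e ∈ H.edgeSet)) ∧ P G ∧ ¬ P H

theorem large {n : ℕ} (P : SimpleGraph (Fin n) → Prop)
    (hmono : ∀ G H : SimpleGraph (Fin n), G ≤ H → P G → P H)
    (hiso : ∀ (σ : Fin n ≃ Fin n) (G : SimpleGraph (Fin n)), P G → P (G.map σ.toEmbedding))
    (h : ¬ Pool.Agent.H119R2.Kp.GP n (n.choose 2 - 1) P) : Evasive P := by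
  intro σ hσ
  by_contra hcon
  refine h ⟨hmono, hiso, Pool.Agent.H119R2.Kp.dec_of_strategy _ P σ hσ fun G H hGH hPG => ?_⟩
  by_contra hPH
  exact hcon ⟨G, H, hGH, hPG, hPH⟩

theorem lower {n k s : ℕ} {G : SimpleGraph (Fin n)} (h : HEC k s G) :
    ∃ U : Set (Fin n), s ≤ U.ncard ∧ (G.induce U).IsEdgeConnected k := by
  obtain ⟨U, hs, hU⟩ := h
  exact ⟨(U : Set (Fin n)), by rwa [Set.ncard_coe_finset], ec_isEdgeConnected hU⟩

theorem upper {n k s : ℕ} {G : SimpleGraph (Fin n)}
    (h : ∃ U : Set (Fin n), s ≤ U.ncard ∧ (G.induce U).Connected ∧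
      ∀ v ∈ U, k ≤ (G.neighborSet v ∩ U).ncard) : HCR k s G := by
  classical
  obtain ⟨U, hs, hU, hd⟩ := h
  obtain ⟨A, rfl⟩ : ∃ A : Finset (Fin n), (A : Set (Fin n)) = U :=
    ⟨U.toFinset, Set.coe_toFinset U⟩
  refine ⟨A, by rwa [Set.ncard_coe_finset] at hs, con_of_connected hU.preconnected,
    fun v hv => ?_⟩
  have h1 := hd v (Finset.mem_coe.2 hv)
  refine le_dg (G.neighborSet v ∩ (A : Set (Fin n))).toFinset ?_ fun x hx => ?_
  · rwa [Set.ncard_eq_toFinset_card'] at h1
  · rw [Set.mem_toFinset] at hx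
    exact ⟨Finset.mem_coe.1 hx.2, hx.1⟩

theorem top_hec {n k s : ℕ} (hk : k + 1 ≤ n) (hs : s ≤ n) :
    HEC k s (⊤ : SimpleGraph (Fin n)) := by
  classical
  refine ⟨Finset.univ, by simpa using hs, fun A _ hne hA => ?_⟩
  have hpos := Finset.card_pos.2 hne
  have hlt : A.card < n := by
    have := Finset.card_lt_card (Finset.ssubset_iff_subset_ne.2 ⟨Finset.subset_univ A, hA⟩)
    rwa [Finset.card_univ, Fintype.card_fin] at this
  refine le_cut (A ×ˢ Aᶜ) ?_ fun x hx => ?_
  · rw [Finset.card_product, Finset.card_compl, Fintype.card_fin]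
    obtain ⟨a, ha⟩ : ∃ a, A.card = a + 1 := ⟨A.card - 1, by omega⟩
    obtain ⟨b, hb⟩ : ∃ b, n - A.card = b + 1 := ⟨n - A.card - 1, by omega⟩
    have h1 : (a + 1) * (b + 1) = a * b + a + b + 1 := by ring
    rw [hb, ha, h1]
    have := Nat.zero_le (a * b)
    omega
  · rw [Finset.mem_product, Finset.mem_compl] at hx
    refine ⟨hx.1, Finset.mem_univ _, hx.2, ?_⟩
    rw [SimpleGraph.top_adj]
    rintro h
    exact hx.2 (h ▸ hx.1)

theorem bot_not {n k s : ℕ} (hk : 2 ≤ k) (hs : 2 ≤ s) :
    ¬ ∃ U : Set (Fin n), s ≤ U.ncard ∧ ((⊥ : SimpleGraph (Fin n)).induce U).Connected ∧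
      ∀ v ∈ U, k ≤ ((⊥ : SimpleGraph (Fin n)).neighborSet v ∩ U).ncard := by
  rintro ⟨U, h1, _, h3⟩
  obtain ⟨v, hv⟩ : U.Nonempty := by
    rw [← Set.ncard_pos]
    omega
  have h4 := h3 v hv
  have h5 : (⊥ : SimpleGraph (Fin n)).neighborSet v ∩ U = ∅ := by
    ext x
    simp
  rw [h5, Set.ncard_empty] at h4
  omega

/-- **Having a large `k`-edge-connected subgraph is evasive.** Likewise for every monotone
isomorphism-invariant property between this one and having a large connected subgraph of minimum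
degree at least `k`. -/
theorem result : ∃ ε : ℝ, 0 < ε ∧ ∃ n₀ : ℕ, ∀ n k s : ℕ, 2 ≤ k → 2 ≤ s → s ≤ n →
    (5 * k + 41 ≤ s ∨ (n₀ ≤ n ∧ (k : ℝ) ≤ (n : ℝ) ^ (1 / 2 + ε))) →
    ∀ P : SimpleGraph (Fin n) → Prop,
      (∀ G H : SimpleGraph (Fin n), G ≤ H → P G → P H) →
      (∀ (σ : Fin n ≃ Fin n) (G : SimpleGraph (Fin n)), P G → P (G.map σ.toEmbedding)) →
      (∀ G : SimpleGraph (Fin n),
        (∃ U : Set (Fin n), s ≤ U.ncard ∧ (G.induce U).IsEdgeConnected k) → P G) →
      (∀ G : SimpleGraph (Fin n), P G →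
        ∃ U : Set (Fin n), s ≤ U.ncard ∧ (G.induce U).Connected ∧
          ∀ v ∈ U, k ≤ (G.neighborSet v ∩ U).ncard) →
      Evasive P := by
  obtain ⟨c, hc, n1, hsp⟩ := SparseEvasive.result
  obtain ⟨N, hN⟩ : ∃ N : ℕ, (184 : ℝ) ≤ (N : ℝ) ^ (c / 2) ∧ 16 ≤ N := by
    obtain ⟨N, hN⟩ := exists_nat_ge ((184 : ℝ) ^ (2 / c))
    refine ⟨max N 16, ?_, le_max_right _ _⟩
    have h1 : ((184 : ℝ) ^ (2 / c)) ^ (c / 2) = 184 := by
      rw [← Real.rpow_mul (by norm_num)]
      have : 2 / c * (c / 2) = 1 := by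
        field_simp
      rw [this, Real.rpow_one]
    calc (184 : ℝ) = ((184 : ℝ) ^ (2 / c)) ^ (c / 2) := h1.symm
      _ ≤ ((max N 16 : ℕ) : ℝ) ^ (c / 2) := by
          refine Real.rpow_le_rpow (by positivity) (hN.trans ?_) (by positivity)
          exact_mod_cast le_max_left _ _
  refine ⟨min (c / 2) (1 / 4), lt_min (by linarith) (by norm_num), max n1 N, ?_⟩
  intro n k s hk hs hsn hcase P hmono hiso hlow hup
  by_cases hbig : 5 * k + 41 ≤ s
  · refine large P hmono hiso fun hGP => ?_
    refine direct hGP (fun H hH => hlow H (lower hH)) (fun H hH => upper (hup H hH)) ?_ hk hbig hsn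
    have : 0 < n.choose 2 := Nat.choose_pos (by omega)
    omega
  · obtain ⟨hn, hkn⟩ := hcase.resolve_left hbig
    have hn1 : n1 ≤ n := (le_max_left _ _).trans hn
    have hn2 : N ≤ n := (le_max_right _ _).trans hn
    have hn16 : 16 ≤ n := hN.2.trans hn2
    have hn0 : (0 : ℝ) < n := by exact_mod_cast (by omega : 0 < n)
    have h1n : (1 : ℝ) ≤ n := by exact_mod_cast (by omega : 1 ≤ n)
    have h184 : (184 : ℝ) ≤ (n : ℝ) ^ (c / 2) :=
      hN.1.trans (Real.rpow_le_rpow (by positivity) (by exact_mod_cast hn2) (by positivity))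
    have hk1 : (k : ℝ) ≤ (n : ℝ) ^ (1 / 2 + c / 2) :=
      hkn.trans (Real.rpow_le_rpow_of_exponent_le h1n (by
        have := min_le_left (c / 2) (1 / 4 : ℝ)
        linarith))
    have hk2 : (k : ℝ) ≤ (n : ℝ) ^ (3 / 4 : ℝ) :=
      hkn.trans (Real.rpow_le_rpow_of_exponent_le h1n (by
        have := min_le_right (c / 2) (1 / 4 : ℝ)
        linarith))
    have hkn' : k + 1 ≤ n := by
      have h1 : (2 : ℝ) ≤ (n : ℝ) ^ (1 / 4 : ℝ) := by
        have h2 : (2 : ℝ) = (16 : ℝ) ^ (1 / 4 : ℝ) := by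
          rw [show (16 : ℝ) = 2 ^ (4 : ℝ) by norm_num, ← Real.rpow_mul (by norm_num)]
          norm_num
        rw [h2]
        exact Real.rpow_le_rpow (by norm_num) (by exact_mod_cast hn16) (by norm_num)
      have h2 : (n : ℝ) = (n : ℝ) ^ (3 / 4 : ℝ) * (n : ℝ) ^ (1 / 4 : ℝ) := by
        rw [← Real.rpow_add hn0]
        norm_num
      have h3 : (0 : ℝ) ≤ (n : ℝ) ^ (3 / 4 : ℝ) := by positivity
      have h4 : 2 * (k : ℝ) ≤ n := by
        rw [h2]
        nlinarith
      have h5 : 2 * k ≤ n := by exact_mod_cast h4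
      omega
    intro σ hσ
    refine hsp n hn1 P hmono hiso ⟨⊤, hlow _ (lower (top_hec hkn' hsn))⟩
      ⟨⊥, fun h => bot_not hk hs (hup _ h)⟩ (Or.inl fun G hG => ?_) σ hσ
    refine ⟨∅, by simp, Or.inl ?_⟩
    have h1 : {e : Sym2 (Fin n) | e ∈ G.edgeSet ∧ ∀ v ∈ (∅ : Finset (Fin n)), v ∉ e} =
        G.edgeSet := by
      ext e
      simp
    rw [h1]
    have h2 := edges_le G k s (5 * k + 41) (by omega) (by omega) (by omega) (by omega)
      (fun h => hG (hlow _ (lower h)))
    have h3 : (G.edgeSet.ncard : ℝ) ≤ ((2 * (5 * k + 41) * n : ℕ) : ℝ) := by exact_mod_cast h2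
    refine h3.trans ?_
    push_cast
    have h4 : (1 : ℝ) ≤ (n : ℝ) ^ (1 / 2 + c / 2) := Real.one_le_rpow h1n (by linarith)
    have h5 : (2 * (5 * (k : ℝ) + 41)) ≤ 184 * (n : ℝ) ^ (1 / 2 + c / 2) := by linarith
    have h6 : (0 : ℝ) ≤ (n : ℝ) ^ (1 / 2 + c / 2) := by positivity
    calc 2 * (5 * (k : ℝ) + 41) * n ≤ 184 * (n : ℝ) ^ (1 / 2 + c / 2) * n :=
          mul_le_mul_of_nonneg_right h5 hn0.le
      _ ≤ (n : ℝ) ^ (c / 2) * (n : ℝ) ^ (1 / 2 + c / 2) * n :=
          mul_le_mul_of_nonneg_right (mul_le_mul_of_nonneg_right h184 h6) hn0.le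
      _ = (n : ℝ) ^ (3 / 2 + c) := by
          conv_lhs => rw [← Real.rpow_add hn0]
          conv_lhs =>
            enter [2]
            rw [← Real.rpow_one (n : ℝ)]
          rw [← Real.rpow_add hn0]
          congr 1
          ring

end Pool.Agent.Results.MP_257582_lc.EdgeConnectedSubgraphs
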