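import Pool.Agent.TH669.KS.Num
import Pool.Agent.TH669.KS.Choice
import Pool.Agent.Results.MP_257582_lc.SparseEvasive

set_option autoImplicit false

/-!
# Between long cycles and large components every property is evasive (MP_257582_lc)

Let `P` be a monotone isomorphism-invariant property of graphs on `n` vertices that contains all
graphs with a cycle of length at least `s`, and all members of which have a connected component with at
least `s` vertices. Then `P` is evasive if `n ≥ n₀` and `3 ≤ s ≤ (n - n ^ (4 / 5)) / 2`, and also if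
`s > n / r`, `r` the smallest prime factor of `n`, and `n` is the product of a squarefree number and
a prime power (no condition that `n` is large).

Proof. The vertex set is cut into blocks of sizes between `s` and `2 s - 1`: several blocks of a prime
size `p` and two blocks of coprime squarefree sizes (a sieve), respectively one block of size `n`. The
group of all translations is an extension of a `p`-group by a cyclic group. If the property is not
evasive, then the signed sum of its values over the invariant graphs vanishes (`relation`). If two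
blocks are joined, or if the inner Cayley graph of some block is connected, then there is a cycle of
length at least `s` (connected Cayley graphs of abelian groups have Hamiltonian cycles, `ham_cycle`);
otherwise all components have less than `s` vertices. So the sum is the product over the blocks of the
signed numbers of generating subsets, which do not vanish for groups of squarefree exponent (`Gm_pos`).
For bounded `s` the graphs without a cycle of length at least `s` have `O(n)` edges, and
`SparseEvasive.result` applies.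
-/

namespace Pool.Agent.Results.MP_257582_lc.LongCycleSandwich

open Pool.Agent.TH669.KS
open Pool.Agent.TH669.KC (HCR con_of_connected)

/-- Every decision strategy `σ` (the next pair to be queried depends only on the answers to the
queries made so far) needs all `n.choose 2` queries: there are two graphs that agree on the first
`n.choose 2 - 1` queried pairs, one with and one without `P`. -/
def Evasive {n : ℕ} (P : SimpleGraph (Fin n) → Prop) : Prop :=
  ∀ σ : Finset (Sym2 (Fin n)) → SimpleGraph (Fin n) → Sym2 (Fin n),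
    (∀ (Q : Finset (Sym2 (Fin n))) (G H : SimpleGraph (Fin n)),
        (∀ e ∈ Q, (e ∈ G.edgeSet ↔ e ∈ H.edgeSet)) → σ Q G = σ Q H) →
    ∃ G H : SimpleGraph (Fin n),
      (∀ e ∈ (fun Q : Finset (Sym2 (Fin n)) => insert (σ Q G) Q)^[n.choose 2 - 1]
            (∅ : Finset (Sym2 (Fin n))),
          (e ∈ G.edgeSet ↔ e ∈ H.edgeSet)) ∧ P G ∧ ¬ P H

theorem large {n : ℕ} (P : SimpleGraph (Fin n) → Prop)
    (hmono : ∀ G H : SimpleGraph (Fin n), G ≤ H → P G → P H)
    (hiso : ∀ (σ : Fin n ≃ Fin n) (G : SimpleGraph (Fin n)), P G → P (G.map σ.toEmbedding))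
    (h : ¬ Pool.Agent.H119R2.Kp.GP n (n.choose 2 - 1) P) : Evasive P := by
  intro σ hσ
  by_contra hcon
  refine h ⟨hmono, hiso, Pool.Agent.H119R2.Kp.dec_of_strategy _ P σ hσ fun G H hGH hPG => ?_⟩
  by_contra hPH
  exact hcon ⟨G, H, hGH, hPG, hPH⟩

theorem upper {n s : ℕ} {G : SimpleGraph (Fin n)}
    (h : ∃ U : Set (Fin n), s ≤ U.ncard ∧ (G.induce U).Connected) : HCR 0 s G := by
  classical
  obtain ⟨U, hs, hU⟩ := h
  obtain ⟨A, rfl⟩ : ∃ A : Finset (Fin n), (A : Set (Fin n)) = U :=
    ⟨U.toFinset, Set.coe_toFinset U⟩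
  exact ⟨A, by rwa [Set.ncard_coe_finset] at hs, con_of_connected hU.preconnected,
    fun v _ => Nat.zero_le _⟩

theorem bot_not {n s : ℕ} (hs : 2 ≤ s) :
    ¬ ∃ U : Set (Fin n), s ≤ U.ncard ∧ ((⊥ : SimpleGraph (Fin n)).induce U).Connected := by
  rintro ⟨U, h1, h2⟩
  obtain ⟨a, ha, c, hc, hac⟩ := (Set.one_lt_ncard (Set.toFinite U)).1 (by omega)
  have h3 := h2.preconnected ⟨a, ha⟩ ⟨c, hc⟩
  obtain ⟨w⟩ := h3
  cases w with
  | nil => exact hac rfl
  | cons h _ => exact h

/-- **Between long cycles and large components every property is evasive.** -/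
theorem result : ∃ n₀ : ℕ, ∀ n s : ℕ, 3 ≤ s → s ≤ n →
    ((n₀ ≤ n ∧ 2 * (s : ℝ) + (n : ℝ) ^ (4 / 5 : ℝ) ≤ n) ∨
      (n < s * n.minFac ∧ ∃ p a m : ℕ, p.Prime ∧ Squarefree m ∧ n = p ^ a * m)) →
    ∀ P : SimpleGraph (Fin n) → Prop,
      (∀ G H : SimpleGraph (Fin n), G ≤ H → P G → P H) →
      (∀ (σ : Fin n ≃ Fin n) (G : SimpleGraph (Fin n)), P G → P (G.map σ.toEmbedding)) →
      (∀ G : SimpleGraph (Fin n),
        (∃ t, s ≤ t ∧ (SimpleGraph.cycleGraph t).IsContained G) → P G) →
      (∀ G : SimpleGraph (Fin n), P G →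
        ∃ U : Set (Fin n), s ≤ U.ncard ∧ (G.induce U).Connected) →
      Evasive P := by
  obtain ⟨s0, hbig⟩ := choice
  obtain ⟨c, hc, n1, hsp⟩ := SparseEvasive.result
  refine ⟨max n1 (4 * s0 ^ 2), ?_⟩
  intro n s hs3 hsn hcase P hmono hiso hlow hup
  have hq : n.choose 2 - 1 < n.choose 2 := by
    have : 0 < n.choose 2 := Nat.choose_pos (by omega)
    omega
  rcases hcase with ⟨hn, hcase⟩ | ⟨hr, p, a, m, hp, hm, hn⟩
  · have hn1 : n1 ≤ n := (le_max_left _ _).trans hn
    have hn2 : 4 * s0 ^ 2 ≤ n := (le_max_right _ _).trans hn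
    rcases Nat.lt_or_ge s s0 with hs | hs
    · intro σ hσ
      refine hsp n hn1 P hmono hiso ⟨⊤, hlow _ (hasC_top hsn)⟩
        ⟨⊥, fun h => bot_not (by omega) (hup _ h)⟩ (Or.inl fun G hG => ?_) σ hσ
      refine ⟨∅, by simp, Or.inl ?_⟩
      have h1 : {e : Sym2 (Fin n) | e ∈ G.edgeSet ∧ ∀ v ∈ (∅ : Finset (Fin n)), v ∉ e} =
          G.edgeSet := by
        ext e
        simp
      rw [h1]
      have h2 : ((G.edgeSet.ncard : ℕ) : ℝ) ≤ ((2 * s * n : ℕ) : ℝ) := by
        exact_mod_cast edges_le G s hs3 fun h => hG (hlow _ h)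
      refine h2.trans ?_
      have hn0 : (0 : ℝ) < n := by exact_mod_cast (by omega : 0 < n)
      have h1n : (1 : ℝ) ≤ n := by exact_mod_cast (by omega : 1 ≤ n)
      have h3 : (2 * s : ℝ) ≤ Real.sqrt n := by
        apply Real.le_sqrt_of_sq_le
        have h4 : (2 * s) ^ 2 ≤ n := by
          calc (2 * s) ^ 2 = 4 * s ^ 2 := by ring
            _ ≤ 4 * s0 ^ 2 := Nat.mul_le_mul_left 4 (Nat.pow_le_pow_left hs.le 2)
            _ ≤ n := hn2
        exact_mod_cast h4
      calc ((2 * s * n : ℕ) : ℝ) = (2 * s : ℝ) * n := by push_cast; ring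
        _ ≤ Real.sqrt n * n := mul_le_mul_of_nonneg_right h3 hn0.le
        _ = (n : ℝ) ^ (3 / 2 : ℝ) := by
            rw [Real.sqrt_eq_rpow]
            conv_lhs => rw [← Real.rpow_one (n : ℝ), ← Real.rpow_mul hn0.le, ← Real.rpow_add hn0]
            norm_num
        _ ≤ (n : ℝ) ^ (3 / 2 + c) := Real.rpow_le_rpow_of_exponent_le h1n (by linarith)
    · refine large P hmono hiso fun hGP => ?_
      have h2s : 2 * s ≤ n := by
        have h1 : (0 : ℝ) ≤ (n : ℝ) ^ (4 / 5 : ℝ) := by positivity
        have h2 : 2 * (s : ℝ) ≤ n := by linarith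
        exact_mod_cast h2
      obtain ⟨u, hu⟩ : ∃ u, n = 2 * s + u := ⟨n - 2 * s, by omega⟩
      have hu5 : n ^ 4 ≤ u ^ 5 := by
        have h1 : (n : ℝ) ^ (4 / 5 : ℝ) ≤ u := by
          have h2 : (n : ℝ) = 2 * s + u := by exact_mod_cast hu
          linarith
        have h2 : ((n : ℝ) ^ (4 / 5 : ℝ)) ^ 5 = (n : ℝ) ^ 4 := by
          rw [← Real.rpow_natCast, ← Real.rpow_mul (Nat.cast_nonneg n), ← Real.rpow_natCast]
          norm_num
        have h3 : (n : ℝ) ^ 4 ≤ (u : ℝ) ^ 5 := by
          rw [← h2]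
          exact pow_le_pow_left₀ (by positivity) h1 5
        exact_mod_cast h3
      obtain ⟨p, j, b0, b1, hp, hn', q0, q1, hcop, g1, g2, g3, g4, g5, g6⟩ := hbig s n u hs hu hu5
      exact split hGP (fun H hH => hlow H hH) (fun H hH => upper (hup H hH)) hq hs3 p j b0 b1 hp hn'
        q0 q1 hcop g1 g2 g3 g4 g5 g6
  · refine large P hmono hiso fun hGP => ?_
    by_cases hpm : p ∣ m
    · obtain ⟨m', rfl⟩ := hpm
      have hm' : Squarefree m' := hm.squarefree_of_dvd (dvd_mul_left _ _)
      refine single hGP (fun H hH => hlow H hH) (fun H hH => upper (hup H hH)) hq hs3 p (a + 1) m' hp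
        (by rw [hn]; ring) hm' ?_ hsn hr
      intro hpm'
      have h1 := hm p (mul_dvd_mul_left p hpm')
      exact hp.one_lt.ne' (Nat.isUnit_iff.1 h1)
    · exact single hGP (fun H hH => hlow H hH) (fun H hH => upper (hup H hH)) hq hs3 p a m hp hn hm
        hpm hsn hr

end Pool.Agent.Results.MP_257582_lc.LongCycleSandwich
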