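import Pool.Agent.TH669.KP.Big
import Pool.Agent.TH669.KP.Small
import Pool.Agent.Results.MP_257582_lc.SparseEvasive

set_option autoImplicit false

/-!
# Containing a path on `s` vertices is evasive, for all `2 ≤ s ≤ n` (MP_257582_lc)

There is `n₀` such that for all `n ≥ n₀` and all `2 ≤ s ≤ n` the property of containing a path on `s`
vertices, for graphs on `n` vertices, is evasive. The case `s = n` is the existence of a Hamiltonian
path.

Proof.  For `s < s₀` the graphs without the property have `O(n)` edges and
`SparseEvasive.result` applies. Let `s ≥ s₀`. The vertex set is cut into a set `F` of one or two fixed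
points, `k` blocks of a prime size `p` slightly above `s / 2` and two blocks of coprime squarefree
sizes `b`, `b'`; a small sieve (`NT.nt`) gives such `b`, `b'` for all `n ≥ s`, both larger than
`s / 2` and coprime to 6 if `n ≥ 1.05 s`. The group is generated by the translations of the `p`-blocks
and one element which multiplies all `p`-blocks by a primitive root and rotates the other two blocks;
it is an extension of a `p`-group by a cyclic group. If the property is not evasive, then the
signed sum of the values of the property over the invariant graphs vanishes (`relation`).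
A sum over the inner orbits of a block vanishes if the block is joined to another block (pairs with
at least `(s - 1) / 2` common neighbours can be toggled, `stab`), or attached to nothing; the sum
over the edge between two fixed points vanishes if a block is attached to both. For the remaining
configurations every block is attached to one fixed point, there is a path on `s` vertices if and only
if two blocks the inner graphs of which are connected are attached to the same or to adjacent fixed
points (connected circulant graphs have Hamiltonian paths, `circ_ham`), and the sum is evaluated with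
the Moebius function: it is a nonzero multiple of `μ(b) μ(b')`.
-/

namespace Pool.Agent.Results.MP_257582_lc.PathContainment

open Pool.Agent.TH669.KP

/-- Every decision strategy `σ` (the next pair to be queried depends only on the answers to the
queries made so far) needs all `n.choose 2` queries: there are two graphs that agree on the first
`n.choose 2 - 1` queried pairs, one with and one without `P`. -/
def Evasive {n : ℕ} (P : SimpleGraph (Fin n) → Prop) : Prop :=
  ∀ σ : Finset (Sym2 (Fin n)) → SimpleGraph (Fin n) → Sym2 (Fin n),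
    (∀ (Q : Finset (Sym2 (Fin n))) (G H : SimpleGraph (Fin n)),
        (∀ e ∈ Q, (e ∈ G.edgeSet ↔ e ∈ H.edgeSet)) → σ Q G = σ Q H) →
    ∃ G H : SimpleGraph (Fin n),
      (∀ e ∈ (fun Q : Finset (Sym2 (Fin n)) => insert (σ Q G) Q)^[n.choose 2 - 1]
            (∅ : Finset (Sym2 (Fin n))),
          (e ∈ G.edgeSet ↔ e ∈ H.edgeSet)) ∧ P G ∧ ¬ P H

theorem hasPath_bot (n s : ℕ) (hs : 2 ≤ s) : ¬ HasPath (⊥ : SimpleGraph (Fin n)) s := by
  rintro ⟨l, _, h2, h3⟩
  rcases l with _ | ⟨a, _ | ⟨c, l⟩⟩
  · simp only [List.length_nil] at h2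
    omega
  · simp only [List.length_cons, List.length_nil] at h2
    omega
  · rw [List.isChain_cons_cons] at h3
    exact h3.1

theorem hasPath_top (n s : ℕ) (hs : s ≤ n) : HasPath (⊤ : SimpleGraph (Fin n)) s := by
  refine hasPath_of_le (List.finRange n) (List.nodup_finRange n) (by simpa using hs) ?_
  refine List.Pairwise.isChain ?_
  refine (List.nodup_finRange n).imp fun {x y} hxy => ?_
  exact hxy

theorem hasPath_iso' {n s : ℕ} (σ : Fin n ≃ Fin n) (G : SimpleGraph (Fin n)) (h : HasPath G s) :
    HasPath (G.map σ.toEmbedding) s := (hasPath_iso σ).2 h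

theorem large (n s : ℕ)
    (h : ¬ Pool.Agent.H119R2.Kp.GP n (n.choose 2 - 1)
      (fun G : SimpleGraph (Fin n) => HasPath G s)) :
    Evasive (fun G : SimpleGraph (Fin n) => HasPath G s) := by
  intro σ hσ
  by_contra hcon
  have hdec : Pool.Agent.H119R2.Kp.Dec (n.choose 2 - 1)
      (fun S : Finset (Pool.Agent.H98R2.Ev.EV (Fin n)) =>
        HasPath (Pool.Agent.H98R2.Ev.toG S) s) := by
    refine Pool.Agent.H119R2.Kp.dec_of_strategy _ (fun G : SimpleGraph (Fin n) => HasPath G s) σ hσ
      fun G H hGH hPG => ?_
    by_contra hPH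
    exact hcon ⟨G, H, hGH, hPG, hPH⟩
  exact h ⟨fun G H hGH hG => HasPath.mono hGH hG, fun τ G hG => hasPath_iso' τ G hG, hdec⟩

/-- **Containing a path on `s` vertices is evasive.** -/
theorem result : ∃ n₀ : ℕ, ∀ n : ℕ, n₀ ≤ n → ∀ s : ℕ, 2 ≤ s → s ≤ n →
    Evasive (fun G : SimpleGraph (Fin n) => (SimpleGraph.pathGraph s).IsContained G) := by
  obtain ⟨s0, hbig⟩ := big
  obtain ⟨c, hc, n1, hsp⟩ := SparseEvasive.result
  refine ⟨max n1 (max (4 * s0 ^ 2) 2), fun n hn s hs2 hsn => ?_⟩
  have hn1 : n1 ≤ n := (le_max_left _ _).trans hn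
  have hn2 : 4 * s0 ^ 2 ≤ n := (le_max_left _ _).trans ((le_max_right _ _).trans hn)
  have hn3 : 2 ≤ n := (le_max_right _ _).trans ((le_max_right _ _).trans hn)
  have hfun : (fun G : SimpleGraph (Fin n) => (SimpleGraph.pathGraph s).IsContained G) =
      fun G : SimpleGraph (Fin n) => HasPath G s := by
    funext G
    exact propext (hasPath_iff G s).symm
  rw [hfun]
  rcases Nat.lt_or_ge s s0 with hs | hs
  · intro σ hσ
    refine hsp n hn1 (fun G : SimpleGraph (Fin n) => HasPath G s)
      (fun G H hGH hG => HasPath.mono hGH hG) (fun τ G hG => hasPath_iso' τ G hG)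
      ⟨⊤, hasPath_top n s hsn⟩ ⟨⊥, hasPath_bot n s hs2⟩ (Or.inl fun G hG => ?_) σ hσ
    refine ⟨∅, by simp, Or.inl ?_⟩
    have h1 : {e : Sym2 (Fin n) | e ∈ G.edgeSet ∧ ∀ v ∈ (∅ : Finset (Fin n)), v ∉ e} = G.edgeSet := by
      ext e
      simp
    rw [h1]
    have h2 : ((G.edgeSet.ncard : ℕ) : ℝ) ≤ ((2 * s * n : ℕ) : ℝ) := by
      exact_mod_cast edges_le G s hG
    refine h2.trans ?_
    have hn0 : (0 : ℝ) < n := by exact_mod_cast (by omega : 0 < n)
    have h1n : (1 : ℝ) ≤ n := by exact_mod_cast (by omega : 1 ≤ n)
    have h3 : (2 * s : ℝ) ≤ Real.sqrt n := by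
      apply Real.le_sqrt_of_sq_le
      have h4 : (2 * s) ^ 2 ≤ n := by
        calc (2 * s) ^ 2 = 4 * s ^ 2 := by ring
          _ ≤ 4 * s0 ^ 2 := Nat.mul_le_mul_left 4 (Nat.pow_le_pow_left hs.le 2)
          _ ≤ n := hn2
      exact_mod_cast h4
    calc ((2 * s * n : ℕ) : ℝ) = (2 * s : ℝ) * n := by push_cast; ring
      _ ≤ Real.sqrt n * n := mul_le_mul_of_nonneg_right h3 hn0.le
      _ = (n : ℝ) ^ (3 / 2 : ℝ) := by
          rw [Real.sqrt_eq_rpow]
          conv_lhs => rw [← Real.rpow_one (n : ℝ), ← Real.rpow_mul hn0.le, ← Real.rpow_add hn0]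
          norm_num
      _ ≤ (n : ℝ) ^ (3 / 2 + c) := Real.rpow_le_rpow_of_exponent_le h1n (by linarith)
  · refine large n s (hbig s n _ hs hsn ?_)
    have : 0 < n.choose 2 := Nat.choose_pos hn3
    omega

end Pool.Agent.Results.MP_257582_lc.PathContainment
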